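import Pool.Agent.Helper28.BA.GoalsB

/-! Project BA, goal DENS: the range of `dz` is dense. -/

open Complex MeasureTheory Set Filter Topology Metric
open scoped ContDiff ComplexConjugate

namespace Pool.Agent.Helper62.BA

open Pool.Agent.Helper28.BA

theorem vol_ball (s : ℝ) (hs : 0 ≤ s) : (volume.real (closedBall (0 : ℂ) s)) = Real.pi * s ^ 2 := by
  rw [Measure.real, Complex.volume_closedBall]
  simp only [ENNReal.toReal_mul, ENNReal.toReal_pow, ENNReal.toReal_ofReal hs]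
  rw [mul_comm]
  rfl

theorem rpow_add_le {x y r : ℝ} (hx : 0 ≤ x) (hy : 0 ≤ y) (hr : 0 < r) :
    (x + y) ^ r ≤ 2 ^ r * (x ^ r + y ^ r) := by
  have h1 : x + y ≤ 2 * max x y := by
    rcases max_cases x y with h | h <;> linarith [h.1, h.2]
  have hm : 0 ≤ max x y := le_max_of_le_left hx
  calc (x + y) ^ r ≤ (2 * max x y) ^ r := Real.rpow_le_rpow (by positivity) h1 hr.le
    _ = 2 ^ r * (max x y) ^ r := Real.mul_rpow (by norm_num) hm
    _ ≤ 2 ^ r * (x ^ r + y ^ r) := by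
        apply mul_le_mul_of_nonneg_left _ (by positivity)
        have hx' : 0 ≤ x ^ r := Real.rpow_nonneg hx r
        have hy' : 0 ≤ y ^ r := Real.rpow_nonneg hy r
        rcases max_choice x y with h | h <;> rw [h] <;> linarith

theorem int_bound {F : ℂ → ℂ} {a b s t r : ℝ} (ha : 0 ≤ a) (hb : 0 ≤ b) (hs : 0 ≤ s) (ht : 0 ≤ t)
    (hr : 0 < r) (hF : ∀ z, ‖F z‖ ≤ (closedBall (0 : ℂ) s).indicator (fun _ => a) z +
      (closedBall (0 : ℂ) t).indicator (fun _ => b) z) :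
    ∫ z, ‖F z‖ ^ r ≤ 2 ^ r * (a ^ r * (Real.pi * s ^ 2) + b ^ r * (Real.pi * t ^ 2)) := by
  have i1 : Integrable ((closedBall (0 : ℂ) s).indicator (fun _ => a ^ r)) :=
    (integrable_indicator_iff measurableSet_closedBall).2
      (integrableOn_const (isCompact_closedBall _ _).measure_lt_top.ne)
  have i2 : Integrable ((closedBall (0 : ℂ) t).indicator (fun _ => b ^ r)) :=
    (integrable_indicator_iff measurableSet_closedBall).2
      (integrableOn_const (isCompact_closedBall _ _).measure_lt_top.ne)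
  calc ∫ z, ‖F z‖ ^ r ≤ ∫ z, 2 ^ r * ((closedBall (0 : ℂ) s).indicator (fun _ => a ^ r) z +
        (closedBall (0 : ℂ) t).indicator (fun _ => b ^ r) z) := by
        refine integral_mono_of_nonneg (Eventually.of_forall fun z => by positivity)
          ((i1.add i2).const_mul _) (Eventually.of_forall fun z => ?_)
        have e1 : ∀ (S : Set ℂ) (c : ℝ), 0 ≤ c →
            S.indicator (fun _ => c ^ r) z = (S.indicator (fun _ => c) z) ^ r := by
          intro S c hc
          by_cases hz : z ∈ S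
          · rw [indicator_of_mem hz, indicator_of_mem hz]
          · rw [indicator_of_notMem hz, indicator_of_notMem hz, Real.zero_rpow hr.ne']
        have e2 : ∀ (S : Set ℂ) (c : ℝ), 0 ≤ c → 0 ≤ S.indicator (fun _ => c) z := by
          intro S c hc
          exact indicator_nonneg (fun _ _ => hc) z
        simp only
        rw [e1 _ a ha, e1 _ b hb]
        refine le_trans (Real.rpow_le_rpow (norm_nonneg _) (hF z) hr.le) ?_
        exact rpow_add_le (e2 _ a ha) (e2 _ b hb) hr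
    _ = _ := by
        rw [integral_const_mul, integral_add i1 i2, integral_indicator_const _
          measurableSet_closedBall, integral_indicator_const _ measurableSet_closedBall,
          vol_ball s hs, vol_ball t ht]
        simp only [smul_eq_mul]
        ring

theorem dz_mul {f g : ℂ → ℂ} {z : ℂ} (hf : DifferentiableAt ℝ f z) (hg : DifferentiableAt ℝ g z) :
    dz (fun x => f x * g x) z = f z * dz g z + g z * dz f z := by
  unfold dz
  rw [fderiv_fun_mul hf hg]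
  simp only [ContinuousLinearMap.add_apply, ContinuousLinearMap.smul_apply, smul_eq_mul]
  ring

theorem dz_conj {W : ℂ → ℂ} {z : ℂ} (hW : DifferentiableAt ℝ W z) :
    dz (fun x => conj (W x)) z = conj (db W z) := by
  unfold dz db
  have h1 : fderiv ℝ (fun x => conj (W x)) z =
      (Complex.conjCLE : ℂ →L[ℝ] ℂ).comp (fderiv ℝ W z) := by
    have := ((Complex.conjCLE : ℂ →L[ℝ] ℂ).hasFDerivAt.comp z hW.hasFDerivAt).fderiv
    exact this
  rw [h1]
  simp only [ContinuousLinearMap.comp_apply, map_mul, map_add, map_div₀, map_one, map_ofNat,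
    Complex.conj_I]
  simp only [ContinuousLinearEquiv.coe_coe, Complex.conjCLE_apply]
  ring

theorem norm_dz_le (f : ℂ → ℂ) (z : ℂ) : ‖dz f z‖ ≤ ‖fderiv ℝ f z‖ := by
  unfold dz
  have h1 : ‖fderiv ℝ f z 1‖ ≤ ‖fderiv ℝ f z‖ := by
    simpa using (fderiv ℝ f z).le_opNorm 1
  have h2 : ‖fderiv ℝ f z I‖ ≤ ‖fderiv ℝ f z‖ := by
    simpa using (fderiv ℝ f z).le_opNorm I
  rw [norm_mul]
  have h3 : ‖fderiv ℝ f z 1 - I * fderiv ℝ f z I‖ ≤ ‖fderiv ℝ f z‖ + ‖fderiv ℝ f z‖ := by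
    refine (norm_sub_le _ _).trans ?_
    rw [norm_mul, Complex.norm_I, one_mul]
    linarith
  have h4 : ‖(1 / 2 : ℂ)‖ = 1 / 2 := by norm_num
  rw [h4]
  linarith

/-- the cutoffs -/
theorem cutoff : ∃ C : ℝ, 0 ≤ C ∧ ∀ n : ℝ, 1 ≤ n → ∃ χ : ℂ → ℂ, ContDiff ℝ ∞ χ ∧
    (∀ z, ‖z‖ ≤ n → χ z = 1) ∧ (∀ z, 2 * n ≤ ‖z‖ → χ z = 0) ∧ HasCompactSupport χ ∧
    (∀ z, ‖z‖ < n → dz χ z = 0) ∧ (∀ z, 2 * n < ‖z‖ → dz χ z = 0) ∧
    ∀ z, ‖dz χ z‖ ≤ C / n := by
  let φ : ContDiffBump (0 : ℂ) := ⟨1, 2, one_pos, by norm_num⟩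
  have hφ : ContDiff ℝ ∞ (φ : ℂ → ℝ) := φ.contDiff
  have hc : HasCompactSupport (fderiv ℝ (φ : ℂ → ℝ)) := φ.hasCompactSupport.fderiv ℝ
  obtain ⟨C, hC⟩ := (hφ.continuous_fderiv (by simp)).bounded_above_of_compact_support hc
  have hC0 : 0 ≤ C := (norm_nonneg _).trans (hC 0)
  refine ⟨C, hC0, fun n hn => ?_⟩
  have hn0 : (0 : ℝ) < n := by linarith
  set χ : ℂ → ℂ := fun z => ((φ ((n⁻¹ : ℝ) • z) : ℝ) : ℂ) with hχ
  have hχs : ContDiff ℝ ∞ χ := by
    have h1 : ContDiff ℝ ∞ (fun z : ℂ => φ ((n⁻¹ : ℝ) • z)) := hφ.comp (contDiff_const_smul _)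
    exact Complex.ofRealCLM.contDiff.comp h1
  have h1 : ∀ z, ‖z‖ ≤ n → χ z = 1 := by
    intro z hz
    have : φ ((n⁻¹ : ℝ) • z) = 1 := by
      apply φ.one_of_mem_closedBall
      rw [mem_closedBall, dist_zero_right, norm_smul, norm_inv, Real.norm_of_nonneg hn0.le]
      rw [inv_mul_le_iff₀ hn0]
      simpa [φ] using hz
    simp only [hχ, this, ofReal_one]
  have h2 : ∀ z, 2 * n ≤ ‖z‖ → χ z = 0 := by
    intro z hz
    have : φ ((n⁻¹ : ℝ) • z) = 0 := by
      apply φ.zero_of_le_dist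
      rw [dist_zero_right, norm_smul, norm_inv, Real.norm_of_nonneg hn0.le]
      rw [le_inv_mul_iff₀ hn0]
      simpa [φ, mul_comm] using hz
    simp only [hχ, this, ofReal_zero]
  refine ⟨χ, hχs, h1, h2, ?_, ?_, ?_, ?_⟩
  · refine HasCompactSupport.intro (isCompact_closedBall (0 : ℂ) (2 * n)) fun z hz => ?_
    apply h2
    rw [mem_closedBall, dist_zero_right, not_le] at hz
    exact hz.le
  · intro z hz
    have h3 : χ =ᶠ[𝓝 z] fun _ => 1 := by
      have h4 : ∀ᶠ x in 𝓝 z, ‖x‖ < n := continuous_norm.continuousAt.eventually_lt_const hz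
      exact h4.mono fun x hx => h1 x hx.le
    unfold dz
    rw [h3.fderiv_eq]
    simp
  · intro z hz
    have h3 : χ =ᶠ[𝓝 z] fun _ => 0 := by
      have h4 : ∀ᶠ x in 𝓝 z, 2 * n < ‖x‖ := continuous_norm.continuousAt.eventually_const_lt hz
      exact h4.mono fun x hx => h2 x hx.le
    unfold dz
    rw [h3.fderiv_eq]
    simp
  · intro z
    refine (norm_dz_le χ z).trans ?_
    have h3 : HasFDerivAt χ (Complex.ofRealCLM.comp
        ((fderiv ℝ (φ : ℂ → ℝ) ((n⁻¹ : ℝ) • z)).comp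
          ((n⁻¹ : ℝ) • ContinuousLinearMap.id ℝ ℂ))) z := by
      have h4 : HasFDerivAt (fun z : ℂ => (n⁻¹ : ℝ) • z) ((n⁻¹ : ℝ) • ContinuousLinearMap.id ℝ ℂ) z :=
        ((n⁻¹ : ℝ) • ContinuousLinearMap.id ℝ ℂ).hasFDerivAt
      have h5 : HasFDerivAt (φ : ℂ → ℝ) (fderiv ℝ (φ : ℂ → ℝ) ((n⁻¹ : ℝ) • z))
          ((n⁻¹ : ℝ) • z) := ((hφ.differentiable (by simp)) _).hasFDerivAt
      exact Complex.ofRealCLM.hasFDerivAt.comp z (h5.comp z h4)
    rw [h3.fderiv]
    refine ContinuousLinearMap.opNorm_le_bound _ (by positivity) fun v => ?_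
    simp only [ContinuousLinearMap.comp_apply, Complex.ofRealCLM_apply, Complex.norm_real]
    calc ‖(fderiv ℝ (φ : ℂ → ℝ) ((n⁻¹ : ℝ) • z)) (((n⁻¹ : ℝ) • ContinuousLinearMap.id ℝ ℂ) v)‖
        ≤ ‖fderiv ℝ (φ : ℂ → ℝ) ((n⁻¹ : ℝ) • z)‖ * ‖((n⁻¹ : ℝ) • ContinuousLinearMap.id ℝ ℂ) v‖ :=
          ContinuousLinearMap.le_opNorm _ _
      _ ≤ C * (n⁻¹ * ‖v‖) := by
          have : ‖((n⁻¹ : ℝ) • ContinuousLinearMap.id ℝ ℂ) v‖ = n⁻¹ * ‖v‖ := by
            rw [ContinuousLinearMap.smul_apply, norm_smul, norm_inv, Real.norm_of_nonneg hn0.le]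
            rfl
          rw [this]
          exact mul_le_mul_of_nonneg_right (hC _) (by positivity)
      _ = _ := by ring

/-- the power bound tends to zero -/
theorem tend_r {r : ℝ} (hr : 1 < r) (C : ℝ) (hC : 0 ≤ C) :
    Tendsto (fun n : ℝ => (C / n ^ 2) ^ r * (Real.pi * (2 * n) ^ 2)) atTop (𝓝 0) := by
  have h1 : Tendsto (fun n : ℝ => (C ^ r * Real.pi * 4) * n ^ (-(2 * (r - 1)))) atTop
      (𝓝 ((C ^ r * Real.pi * 4) * 0)) :=
    (tendsto_rpow_neg_atTop (by linarith)).const_mul _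
  rw [mul_zero] at h1
  refine h1.congr' ?_
  filter_upwards [eventually_gt_atTop 0] with n hn
  rw [Real.div_rpow hC (by positivity), ← Real.rpow_natCast n 2, ← Real.rpow_mul hn.le, mul_pow,
    ← Real.rpow_natCast n 2]
  have h2 : n ^ (-(2 * (r - 1))) = n ^ ((2 : ℕ) : ℝ) / n ^ (((2 : ℕ) : ℝ) * r) := by
    rw [← Real.rpow_sub hn]
    congr 1
    push_cast
    ring
  rw [h2]
  ring

theorem DENS (h1 : S_CT) : S_DENS := by
  intro h hc hs r₁ r₂ r₃ ε hr1 hr2 hr3 hε
  -- the support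
  obtain ⟨R, hR⟩ := hs.isCompact.isBounded.exists_norm_le
  set S : ℝ := max R 0 with hS
  have hS0 : 0 ≤ S := le_max_right _ _
  have hsupp : ∀ z, S < ‖z‖ → h z = 0 := by
    intro z hz
    by_contra h0
    have := hR z (subset_tsupport _ h0)
    exact absurd (this.trans (le_max_left R 0)) (not_le.2 hz)
  -- the choice of η
  have hη : ∀ r : ℝ, 1 < r → ∀ᶠ η in 𝓝[>] (0 : ℝ),
      2 ^ r * (η ^ r * (Real.pi * S ^ 2)) < ε / 2 := by
    intro r hr
    have h2 : Tendsto (fun η : ℝ => 2 ^ r * (η ^ r * (Real.pi * S ^ 2))) (𝓝[>] 0)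
        (𝓝 (2 ^ r * ((0 : ℝ) ^ r * (Real.pi * S ^ 2)))) := by
      apply Tendsto.mono_left _ nhdsWithin_le_nhds
      exact ((Real.continuousAt_rpow_const 0 r (Or.inr (by linarith))).tendsto.mul_const _).const_mul _
    rw [Real.zero_rpow (by linarith), zero_mul, mul_zero] at h2
    exact h2.eventually_lt_const (by linarith)
  obtain ⟨η, ⟨⟨⟨e1, e2⟩, e3⟩, hη0⟩⟩ := ((((hη r₁ hr1).and (hη r₂ hr2)).and (hη r₃ hr3)).and
    self_mem_nhdsWithin).exists
  have hη0' : (0 : ℝ) < η := hη0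
  obtain ⟨k, hk, hkd, hks⟩ := hc.exists_contDiff_approx ⊤ (ε := fun _ => η) continuous_const
    (fun _ => hη0')
  have hkc : HasCompactSupport k := hs.mono hks
  have hksupp : ∀ z, S < ‖z‖ → k z = 0 := by
    intro z hz
    by_contra h0
    exact hks h0 (hsupp z hz)
  obtain ⟨W, hW, hWd, C, hWC⟩ := h1 (fun z => conj (k z))
    ((Complex.conjCLE : ℂ →L[ℝ] ℂ).contDiff.comp hk) (hkc.comp_left (by simp))
  obtain ⟨D, hD0, hcut⟩ := cutoff
  have hC0 : 0 ≤ C := by
    have := (hWC 0).1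
    have h2 : 0 ≤ ‖W 0‖ * (1 + ‖(0 : ℂ)‖) := by positivity
    linarith
  have hn : ∀ r : ℝ, 1 < r → ∀ᶠ n in (atTop : Filter ℝ),
      2 ^ r * ((C * D / n ^ 2) ^ r * (Real.pi * (2 * n) ^ 2)) < ε / 2 := by
    intro r hr
    have h2 := (tend_r hr (C * D) (by positivity)).const_mul (2 ^ r)
    rw [mul_zero] at h2
    exact h2.eventually_lt_const (by linarith)
  obtain ⟨n, ⟨⟨⟨⟨n1, n2⟩, n3⟩, hn1⟩, hnS⟩⟩ := (((((hn r₁ hr1).and (hn r₂ hr2)).and
    (hn r₃ hr3)).and (eventually_ge_atTop 1)).and (eventually_gt_atTop S)).exists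
  obtain ⟨χ, x1, x2, x3, x4, x5, x6, x7⟩ := hcut n hn1
  have hn0 : (0 : ℝ) < n := by linarith
  have hG : ContDiff ℝ ∞ (fun z => conj (W z)) :=
    (Complex.conjCLE : ℂ →L[ℝ] ℂ).contDiff.comp hW
  have hGd : ∀ z, dz (fun x => conj (W x)) z = k z := by
    intro z
    rw [dz_conj ((hW.differentiable (by simp)) z), hWd z]
    simp
  have key : ∀ z, ‖dz (fun x => χ x * conj (W x)) z - h z‖ ≤
      (closedBall (0 : ℂ) (2 * n)).indicator (fun _ => C * D / n ^ 2) z +
      (closedBall (0 : ℂ) S).indicator (fun _ => η) z := by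
    intro z
    rw [dz_mul ((x1.differentiable (by simp)) z) ((hG.differentiable (by simp)) z), hGd]
    have a1 : χ z * k z = k z := by
      by_cases hz : ‖z‖ ≤ n
      · rw [x2 z hz, one_mul]
      · rw [hksupp z (by linarith [not_le.1 hz]), mul_zero]
    rw [a1]
    have a2 : ‖k z - h z‖ ≤ (closedBall (0 : ℂ) S).indicator (fun _ => η) z := by
      by_cases hz : z ∈ closedBall (0 : ℂ) S
      · rw [indicator_of_mem hz, ← dist_eq_norm]
        exact (hkd z).le
      · rw [mem_closedBall, dist_zero_right, not_le] at hz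
        rw [indicator_of_notMem (by rw [mem_closedBall, dist_zero_right, not_le]; exact hz),
          hksupp z hz, hsupp z hz]
        simp
    have a3 : ‖conj (W z) * dz χ z‖ ≤
        (closedBall (0 : ℂ) (2 * n)).indicator (fun _ => C * D / n ^ 2) z := by
      by_cases hz : z ∈ closedBall (0 : ℂ) (2 * n)
      · rw [indicator_of_mem hz]
        by_cases hz2 : ‖z‖ < n
        · rw [x5 z hz2, mul_zero, norm_zero]
          positivity
        · rw [not_lt] at hz2
          rw [norm_mul, RCLike.norm_conj]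
          have b1 : ‖W z‖ ≤ C / n := by
            rw [le_div_iff₀ hn0]
            refine le_trans ?_ (hWC z).1
            apply mul_le_mul_of_nonneg_left _ (norm_nonneg _)
            linarith
          calc ‖W z‖ * ‖dz χ z‖ ≤ (C / n) * (D / n) :=
                mul_le_mul b1 (x7 z) (norm_nonneg _) (by positivity)
            _ = _ := by field_simp
      · rw [indicator_of_notMem hz]
        rw [mem_closedBall, dist_zero_right, not_le] at hz
        rw [x6 z hz, mul_zero, norm_zero]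
    calc ‖k z + conj (W z) * dz χ z - h z‖ = ‖conj (W z) * dz χ z + (k z - h z)‖ := by
          congr 1; ring
      _ ≤ _ := (norm_add_le _ _).trans (add_le_add a3 a2)
  have fin : ∀ r : ℝ, 1 < r → 2 ^ r * (η ^ r * (Real.pi * S ^ 2)) < ε / 2 →
      2 ^ r * ((C * D / n ^ 2) ^ r * (Real.pi * (2 * n) ^ 2)) < ε / 2 →
      ∫ z, ‖dz (fun x => χ x * conj (W x)) z - h z‖ ^ r ≤ ε := by
    intro r hr f1 f2
    have := int_bound (r := r) (F := fun z => dz (fun x => χ x * conj (W x)) z - h z)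
      (a := C * D / n ^ 2) (b := η) (s := 2 * n) (t := S) (by positivity) hη0'.le (by positivity)
      hS0 (by linarith) key
    refine this.trans ?_
    rw [mul_add]
    linarith
  exact ⟨fun x => χ x * conj (W x), x1.mul hG, x4.mul_right, fin r₁ hr1 e1 n1, fin r₂ hr2 e2 n2,
    fin r₃ hr3 e3 n3⟩

end Pool.Agent.Helper62.BA
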